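import Mathlib

/-!
# Put-or-Take-a-Square: polynomially many decided positions

For Epstein's Put-or-Take-a-Square game the number of `P`-positions in `[0, x]` is at least a
constant times `x ^ (1 / 4)`, and the number of `N`-positions in `[0, x]` is at least a constant
times `x ^ (5 / 8)`.
-/

namespace Pool.Agent.Results.MP_a001a6_co.PolynomialGrowth

/-- `Move n m`: from the position `n` the player to move may name `m`. -/
def Move (n m : ℕ) : Prop := m = n - Nat.sqrt n ^ 2 ∨ m = n + Nat.sqrt n ^ 2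

mutual
/-- The `P`-positions: `0`, and the positive positions all of whose moves lead to an
`N`-position (least sets closed under the rules). -/
inductive PPos : ℕ → Prop
  | zero : PPos 0
  | step (n : ℕ) (hn : 0 < n) (h : ∀ m, Move n m → NPos m) : PPos n
/-- The `N`-positions: the positive positions with a move to a `P`-position. -/
inductive NPos : ℕ → Prop
  | step (n m : ℕ) (hn : 0 < n) (hm : Move n m) (h : PPos m) : NPos n
end

open Classical in
/-- The number of `P`-positions in `[0, x]`. -/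
noncomputable def cP (x : ℕ) : ℕ := ((Finset.range (x + 1)).filter PPos).card

open Classical in
/-- The number of `N`-positions in `[0, x]`. -/
noncomputable def cN (x : ℕ) : ℕ := ((Finset.range (x + 1)).filter NPos).card

theorem sqrt_block (k m : ℕ) (h : m ≤ 2 * k) : Nat.sqrt (k ^ 2 + m) = k := by
  symm
  rw [Nat.eq_sqrt']
  constructor
  · omega
  · nlinarith

theorem sq_N (s : ℕ) (hs : 0 < s) : NPos (s ^ 2) := by
  refine NPos.step _ 0 (by positivity) (Or.inl ?_) PPos.zero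
  have := sqrt_block s 0 (by omega)
  rw [Nat.add_zero] at this
  rw [this]; omega

theorem block_N (k m : ℕ) (hk : 0 < k) (h : m ≤ 2 * k) (hm : PPos m) : NPos (k ^ 2 + m) := by
  refine NPos.step _ m (by positivity) (Or.inl ?_) hm
  rw [sqrt_block k m h]; omega

theorem pell_P (u v s : ℕ) (h : v ^ 2 = 2 * u ^ 2 + 1) (hs : 0 < s) (hsu : s ≤ 2 * u) :
    PPos (s ^ 2 * (u ^ 2 + 1)) := by
  have hv : 0 < v := by
    rcases Nat.eq_zero_or_pos v with h0 | h0
    · rw [h0] at h; simp at h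
    · exact h0
  have e : s ^ 2 * (u ^ 2 + 1) = (s * u) ^ 2 + s ^ 2 := by ring
  rw [e]
  have hle : s ^ 2 ≤ 2 * (s * u) := by nlinarith
  refine PPos.step _ (by positivity) ?_
  rintro m (hm | hm)
  · rw [sqrt_block _ _ hle] at hm
    have : m = s ^ 2 := by omega
    rw [this]; exact sq_N s hs
  · rw [sqrt_block _ _ hle] at hm
    have : m = (s * v) ^ 2 := by
      rw [hm, mul_pow s v, h]; ring
    rw [this]; exact sq_N _ (Nat.mul_pos hs hv)

theorem cP_mono {x y : ℕ} (h : x ≤ y) : cP x ≤ cP y := by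
  classical
  unfold cP
  apply Finset.card_le_card
  apply Finset.filter_subset_filter
  intro a ha
  rw [Finset.mem_range] at *
  omega

theorem cP_pos (x : ℕ) : 1 ≤ cP x := by
  classical
  unfold cP
  rw [Nat.succ_le_iff, Finset.card_pos]
  exact ⟨0, by simp [PPos.zero]⟩

theorem cN_pos (x : ℕ) (hx : 1 ≤ x) : 1 ≤ cN x := by
  classical
  unfold cN
  rw [Nat.succ_le_iff, Finset.card_pos]
  refine ⟨1, ?_⟩
  rw [Finset.mem_filter, Finset.mem_range]
  exact ⟨by omega, by simpa using sq_N 1 one_pos⟩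

theorem cP_pell (u v x : ℕ) (h : v ^ 2 = 2 * u ^ 2 + 1)
    (hx : 4 * u ^ 2 * (u ^ 2 + 1) ≤ x) : 2 * u ≤ cP x := by
  classical
  unfold cP
  have : 2 * u = (Finset.Icc 1 (2 * u)).card := by simp
  rw [this]
  apply Finset.card_le_card_of_injOn (fun s => s ^ 2 * (u ^ 2 + 1))
  · intro s hs
    rw [Finset.mem_coe, Finset.mem_Icc] at hs
    rw [Finset.mem_coe, Finset.mem_filter, Finset.mem_range]
    refine ⟨?_, pell_P u v s h (by omega) hs.2⟩
    have h1 : s ^ 2 ≤ (2 * u) ^ 2 := Nat.pow_le_pow_left hs.2 2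
    have h2 : s ^ 2 * (u ^ 2 + 1) ≤ (2 * u) ^ 2 * (u ^ 2 + 1) := Nat.mul_le_mul_right _ h1
    have h3 : (2 * u) ^ 2 * (u ^ 2 + 1) = 4 * u ^ 2 * (u ^ 2 + 1) := by ring
    show s ^ 2 * (u ^ 2 + 1) < x + 1
    omega
  · intro s hs t ht hst
    have h1 : s ^ 2 * (u ^ 2 + 1) = t ^ 2 * (u ^ 2 + 1) := hst
    have h2 : s ^ 2 = t ^ 2 := Nat.eq_of_mul_eq_mul_right (by positivity) h1
    exact Nat.pow_left_injective (n := 2) (by norm_num) h2

/-- The solutions of Pell's equation `v ^ 2 = 2 u ^ 2 + 1` with `u ≥ 2`. -/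
def pell : ℕ → ℕ × ℕ
  | 0 => (2, 3)
  | j + 1 => (3 * (pell j).1 + 2 * (pell j).2, 4 * (pell j).1 + 3 * (pell j).2)

theorem pell_eq (j : ℕ) : (pell j).2 ^ 2 = 2 * (pell j).1 ^ 2 + 1 := by
  induction j with
  | zero => simp [pell]
  | succ j ih =>
    simp only [pell]
    nlinarith

theorem pell_grow (j : ℕ) : j + 2 ≤ (pell j).1 := by
  induction j with
  | zero => simp [pell]
  | succ j ih =>
    simp only [pell]
    omega

theorem pell_step (j : ℕ) : (pell (j + 1)).1 ≤ 7 * (pell j).1 := by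
  have h := pell_eq j
  have h2 := pell_grow j
  simp only [pell]
  have : (pell j).2 ≤ 2 * (pell j).1 := by
    by_contra hcon
    push Not at hcon
    nlinarith
  omega

theorem cP_lower (x : ℕ) : x ≤ 613 * cP x ^ 4 := by
  by_cases hx : x < 80
  · have := cP_pos x
    have h1 : 1 ≤ cP x ^ 4 := Nat.one_le_pow _ _ this
    omega
  · push Not at hx
    classical
    have hex : ∃ j, x < 4 * (pell j).1 ^ 2 * ((pell j).1 ^ 2 + 1) := by
      refine ⟨x, ?_⟩
      have := pell_grow x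
      have h1 : x < (pell x).1 := by omega
      have h2 : 1 ≤ (pell x).1 := by omega
      nlinarith [Nat.mul_le_mul h2 h2, sq_nonneg (pell x).1]
    obtain ⟨j, hj, hmin⟩ : ∃ j, x < 4 * (pell j).1 ^ 2 * ((pell j).1 ^ 2 + 1) ∧
        ∀ i < j, ¬ x < 4 * (pell i).1 ^ 2 * ((pell i).1 ^ 2 + 1) :=
      ⟨Nat.find hex, Nat.find_spec hex, fun i hi => Nat.find_min hex hi⟩
    rcases j with _ | i
    · simp [pell] at hj
      omega
    · have h1 := hmin i (by omega)
      push Not at h1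
      have h2 := cP_pell _ _ x (pell_eq i) h1
      have h3 := pell_step i
      have hu := pell_grow i
      set u := (pell i).1 with hu'
      set w := (pell (i + 1)).1 with hw
      have h4 : 4 * w ^ 2 * (w ^ 2 + 1) ≤ 4 * (7 * u) ^ 2 * ((7 * u) ^ 2 + 1) := by
        have : w ^ 2 ≤ (7 * u) ^ 2 := Nat.pow_le_pow_left h3 2
        exact Nat.mul_le_mul (Nat.mul_le_mul_left 4 this) (by omega)
      have h5 : 4 * (7 * u) ^ 2 * ((7 * u) ^ 2 + 1) ≤ 9800 * u ^ 4 := by
        have h6 : 1 ≤ u ^ 2 := Nat.one_le_pow _ _ (by omega)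
        nlinarith [Nat.mul_le_mul_left (196 * u ^ 2) h6]
      have h7 : (2 * u) ^ 4 ≤ cP x ^ 4 := Nat.pow_le_pow_left h2 4
      have h8 : (2 * u) ^ 4 = 16 * u ^ 4 := by ring
      omega

theorem key (x K : ℕ) (hK : K + 1 ≤ Nat.sqrt x) : (K - K / 2) * cP K ≤ cN x := by
  classical
  have hx : (K + 1) ^ 2 ≤ x := le_trans (Nat.pow_le_pow_left hK 2) (Nat.sqrt_le' x)
  unfold cP cN
  have e1 : (K - K / 2) = (Finset.Ioc (K / 2) K).card := by simp
  rw [e1, ← Finset.card_product]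
  apply Finset.card_le_card_of_injOn (fun p : ℕ × ℕ => p.1 ^ 2 + p.2)
  · rintro ⟨k, r⟩ hp
    rw [Finset.mem_coe, Finset.mem_product, Finset.mem_Ioc, Finset.mem_filter,
      Finset.mem_range] at hp
    obtain ⟨⟨h1, h2⟩, h3, h4⟩ := hp
    simp only at h1 h2 h3 h4
    rw [Finset.mem_coe, Finset.mem_filter, Finset.mem_range]
    refine ⟨?_, block_N k r (by omega) (by omega) h4⟩
    show k ^ 2 + r < x + 1
    nlinarith
  · rintro ⟨k, r⟩ hp ⟨k', r'⟩ hp' he
    rw [Finset.mem_coe, Finset.mem_product, Finset.mem_Ioc, Finset.mem_filter,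
      Finset.mem_range] at hp hp'
    obtain ⟨⟨h1, h2⟩, h3, h4⟩ := hp
    obtain ⟨⟨h1', h2'⟩, h3', h4'⟩ := hp'
    simp only at h1 h2 h3 h4 h1' h2' h3' h4' he
    have hs := sqrt_block k r (by omega)
    have hs' := sqrt_block k' r' (by omega)
    have hkk : k = k' := by rw [← hs, ← hs', he]
    subst hkk
    simp only [Prod.mk.injEq, true_and]
    omega

theorem cN_lower (x : ℕ) (hx : 1 ≤ x) : x ^ 5 ≤ 10 ^ 11 * cN x ^ 8 := by
  by_cases h9 : x < 9
  · have h1 : 1 ≤ cN x ^ 8 := Nat.one_le_pow _ _ (cN_pos x hx)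
    have h2 : x ^ 5 ≤ 9 ^ 5 := Nat.pow_le_pow_left h9.le 5
    omega
  · push Not at h9
    have h3 : 3 ≤ Nat.sqrt x := Nat.le_sqrt'.mpr (by omega)
    obtain ⟨K, hK⟩ : ∃ K, K + 1 = Nat.sqrt x := ⟨Nat.sqrt x - 1, by omega⟩
    have h2 := key x K hK.le
    have h4 : x < (K + 2) ^ 2 := by
      have := Nat.lt_succ_sqrt' x
      rw [← hK] at this
      exact this
    have hK2 : 2 ≤ K := by omega
    have h5 : x ≤ 4 * K ^ 2 := by nlinarith
    have h6 : K * cP K ≤ 2 * cN x := by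
      have h7 : K ≤ 2 * (K - K / 2) := by omega
      calc K * cP K ≤ 2 * (K - K / 2) * cP K := Nat.mul_le_mul_right _ h7
        _ = 2 * ((K - K / 2) * cP K) := by ring
        _ ≤ 2 * cN x := Nat.mul_le_mul_left 2 h2
    have h8 := cP_lower K
    have h9 : K ^ 5 ≤ 9808 * cN x ^ 4 := by
      calc K ^ 5 = K ^ 4 * K := by ring
        _ ≤ K ^ 4 * (613 * cP K ^ 4) := Nat.mul_le_mul_left _ h8
        _ = 613 * (K * cP K) ^ 4 := by ring
        _ ≤ 613 * (2 * cN x) ^ 4 := Nat.mul_le_mul_left _ (Nat.pow_le_pow_left h6 4)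
        _ = 9808 * cN x ^ 4 := by ring
    calc x ^ 5 ≤ (4 * K ^ 2) ^ 5 := Nat.pow_le_pow_left h5 5
      _ = 1024 * (K ^ 5) ^ 2 := by ring
      _ ≤ 1024 * (9808 * cN x ^ 4) ^ 2 := Nat.mul_le_mul_left _ (Nat.pow_le_pow_left h9 2)
      _ = 98505588736 * cN x ^ 8 := by ring
      _ ≤ 10 ^ 11 * cN x ^ 8 := Nat.mul_le_mul_right _ (by norm_num)

/-- For every `x` the number of `P`-positions in `[0, x]` is at least `(x / 613) ^ (1 / 4)`, and for
`x ≥ 1` the number of `N`-positions in `[0, x]` is at least `(x ^ 5 / 10 ^ 11) ^ (1 / 8)`. -/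
theorem result :
    (∀ x : ℕ, x ≤ 613 * cP x ^ 4) ∧ (∀ x : ℕ, 1 ≤ x → x ^ 5 ≤ 10 ^ 11 * cN x ^ 8) :=
  ⟨cP_lower, cN_lower⟩

end Pool.Agent.Results.MP_a001a6_co.PolynomialGrowth
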